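import Pool.Agent.helper12.OB.SpecC
import Pool.Agent.helper51.GR.CVF

/-! # Project ob (MP_baa4d7_al), row ob:TPM -/

set_option autoImplicit false

namespace Pool.Agent.OB

open Pool.Agent.helper58.DC Pool.Agent.DI Pool.Agent.GR

private theorem TPM_mod {α : Type} [Finite α] {p : ℕ} [Fact p.Prime] (f : α → α)
    (hf : f^[p] = id) : Nat.card α ≡ Nat.card {a : α // f a = a} [MOD p] := by
  classical
  cases nonempty_fintype α
  let φ : Function.End α := f
  have h1 : φ ^ p ^ 1 = 1 := by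
    rw [pow_one]
    exact (hom_coe_pow (fun g : Function.End α => g) rfl (fun g h => rfl) φ p).trans hf
  have h2 := Equiv.Perm.card_fixedPoints_modEq h1
  rw [Nat.card_eq_fintype_card, Nat.card_eq_fintype_card]
  exact h2

private theorem TPM_div {G : Type} [Group G] [Finite G] {p : ℕ} [Fact p.Prime] (L : Subgroup G)
    (g : G) (hg : p ∣ Nat.card (Cz L g)) :
    p ∣ Nat.card {x : G // x ∈ L ∧ x ^ p = 1 ∧ x⁻¹ * g ∈ L ∧ (x⁻¹ * g) ^ p = 1} := by
  obtain ⟨⟨u, hu⟩, hup⟩ := exists_prime_orderOf_dvd_card' p hg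
  have hup' : orderOf u = p := by
    rw [← hup]
    exact (Subgroup.orderOf_mk u hu).symm
  have huL : u ∈ L := hu.1
  have hug : g * u = u * g := Subgroup.mem_centralizer_iff.1 hu.2 g rfl
  have hup1 : u ^ p = 1 := by
    rw [← hup']
    exact pow_orderOf_eq_one u
  have hu1 : u ≠ 1 := by
    intro h
    rw [h, orderOf_one] at hup'
    exact (Fact.out : p.Prime).one_lt.ne hup'
  let S := {x : G // x ∈ L ∧ x ^ p = 1 ∧ x⁻¹ * g ∈ L ∧ (x⁻¹ * g) ^ p = 1}
  have hcj : ∀ x : G, (u * x * u⁻¹)⁻¹ * g = u * (x⁻¹ * g) * u⁻¹ := by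
    intro x
    have e : (u * x * u⁻¹)⁻¹ * g = u * x⁻¹ * (u⁻¹ * (g * u)) * u⁻¹ := by group
    rw [e, hug]
    group
  let f : S → S := fun x => ⟨u * x.1 * u⁻¹,
    L.mul_mem (L.mul_mem huL x.2.1) (L.inv_mem huL),
    by rw [conj_pow, x.2.2.1]; group,
    by rw [hcj]; exact L.mul_mem (L.mul_mem huL x.2.2.2.1) (L.inv_mem huL),
    by rw [hcj, conj_pow, x.2.2.2.2]; group⟩
  have hfn : ∀ (n : ℕ) (x : S), (f^[n] x).1 = u ^ n * x.1 * (u ^ n)⁻¹ := by
    intro n x
    induction n with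
    | zero => simp
    | succ n ih =>
      rw [Function.iterate_succ_apply']
      show u * (f^[n] x).1 * u⁻¹ = _
      rw [ih, pow_succ']
      group
  have hf : f^[p] = id := by
    funext x
    apply Subtype.ext
    rw [hfn, hup1]
    simp
  have h1 := TPM_mod f hf
  let F := {x : S // f x = x}
  have hF : ∀ x : F, u * x.1.1 = x.1.1 * u := by
    intro x
    have e := congrArg Subtype.val x.2
    have e2 : u * x.1.1 * u⁻¹ = x.1.1 := e
    calc u * x.1.1 = u * x.1.1 * u⁻¹ * u := by group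
      _ = x.1.1 * u := by rw [e2]
  have hcm : ∀ x : F, (x.1.1 * u)⁻¹ * g = x.1.1⁻¹ * g * u⁻¹ := by
    intro x
    have e1 : (x.1.1 * u)⁻¹ = x.1.1⁻¹ * u⁻¹ := by
      rw [← hF x]
      group
    have e2 : u⁻¹ * g = g * u⁻¹ := by
      calc u⁻¹ * g = u⁻¹ * (g * u) * u⁻¹ := by group
        _ = g * u⁻¹ := by rw [hug]; group
    rw [e1, mul_assoc, e2, mul_assoc]
  have hui : u⁻¹ ^ p = 1 := by rw [inv_pow, hup1, inv_one]
  have hcu : ∀ x : F, Commute (x.1.1⁻¹ * g) u⁻¹ := by
    intro x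
    have e1 : Commute x.1.1 u := (hF x).symm
    have e2 : Commute g u := hug
    exact (e1.inv_left.mul_left e2).inv_right
  have hcu' : ∀ x : F, Commute x.1.1 u := fun x => (hF x).symm
  let f' : F → F := fun x => ⟨⟨x.1.1 * u,
    L.mul_mem x.1.2.1 huL,
    by rw [(hcu' x).mul_pow, x.1.2.2.1, hup1, one_mul],
    by rw [hcm]; exact L.mul_mem x.1.2.2.2.1 (L.inv_mem huL),
    by rw [hcm, (hcu x).mul_pow, x.1.2.2.2.2, hui, one_mul]⟩,
    Subtype.ext (by
      show u * (x.1.1 * u) * u⁻¹ = x.1.1 * u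
      calc u * (x.1.1 * u) * u⁻¹ = u * x.1.1 := by group
        _ = x.1.1 * u := hF x)⟩
  have hfn' : ∀ (n : ℕ) (x : F), (f'^[n] x).1.1 = x.1.1 * u ^ n := by
    intro n x
    induction n with
    | zero => simp
    | succ n ih =>
      rw [Function.iterate_succ_apply']
      show (f'^[n] x).1.1 * u = _
      rw [ih, pow_succ, mul_assoc]
  have hf' : f'^[p] = id := by
    funext x
    apply Subtype.ext
    apply Subtype.ext
    rw [hfn', hup1]
    simp
  have h2 := TPM_mod f' hf'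
  have h3 : Nat.card {x : F // f' x = x} = 0 := by
    have : IsEmpty {x : F // f' x = x} := ⟨fun x => by
      have e : x.1.1.1 * u = x.1.1.1 := congrArg (fun y : F => y.1.1) x.2
      exact hu1 (mul_eq_left.1 e)⟩
    exact Nat.card_of_isEmpty
  rw [h3] at h2
  exact (Nat.modEq_zero_iff_dvd).1 (h1.trans h2)

/-- the class sum of `g`, counted with multiplicity -/
private noncomputable def TPM_z {G : Type} [Group G] (L : Subgroup G) (g : G) : G → ℂ :=
  fun x => (Nat.card {l : G // l ∈ L ∧ l * g * l⁻¹ = x} : ℂ)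

private theorem TPM_z_self {G : Type} [Group G] (L : Subgroup G) (g : G) :
    TPM_z L g g = (Nat.card (Cz L g) : ℂ) := by
  unfold TPM_z
  congr 1
  refine Nat.card_congr (Equiv.subtypeEquivRight fun l => ?_)
  unfold Cz
  rw [Subgroup.mem_inf, Subgroup.mem_centralizer_iff]
  constructor
  · rintro ⟨h1, h2⟩
    refine ⟨h1, fun k hk => ?_⟩
    rw [Set.mem_singleton_iff.1 hk]
    calc g * l = (l * g * l⁻¹) * l := by rw [h2]
      _ = l * g := by group
  · rintro ⟨h1, h2⟩
    refine ⟨h1, ?_⟩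
    rw [← h2 g rfl]
    group

private theorem TPM_z_conj {G : Type} [Group G] (L : Subgroup G) (g : G) :
    ∀ h ∈ L, ∀ x, TPM_z L g (h * x * h⁻¹) = TPM_z L g x := by
  intro h hh x
  unfold TPM_z
  congr 1
  refine Nat.card_congr ((Equiv.mulLeft h⁻¹).subtypeEquiv fun l => ?_)
  show l ∈ L ∧ l * g * l⁻¹ = h * x * h⁻¹ ↔ h⁻¹ * l ∈ L ∧ (h⁻¹ * l) * g * (h⁻¹ * l)⁻¹ = x
  constructor
  · rintro ⟨h1, h2⟩
    refine ⟨L.mul_mem (L.inv_mem hh) h1, ?_⟩
    calc (h⁻¹ * l) * g * (h⁻¹ * l)⁻¹ = h⁻¹ * (l * g * l⁻¹) * h := by group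
      _ = x := by rw [h2]; group
  · rintro ⟨h1, h2⟩
    refine ⟨?_, ?_⟩
    · have e := L.mul_mem hh h1
      rwa [mul_inv_cancel_left] at e
    · rw [← h2]
      group

private theorem TPM_z_sum {G : Type} [Group G] [Finite G] (L : Subgroup G) (g : G)
    (ψ : G → ℂ) (hψ : ∀ g, ∀ h ∈ L, ψ (h * g * h⁻¹) = ψ g) :
    cc ψ (TPM_z L g) = (Nat.card L : ℂ) * ψ g / ψ 1 := by
  classical
  cases nonempty_fintype G
  unfold cc
  congr 1
  rw [finsum_eq_sum_of_fintype]
  have h1 : ∀ x, TPM_z L g x * ψ x =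
      ∑ l : L, if (l : G) * g * (l : G)⁻¹ = x then ψ g else 0 := by
    intro x
    rw [← Finset.sum_filter, Finset.sum_const, nsmul_eq_mul]
    unfold TPM_z
    by_cases hx : ∃ l : L, (l : G) * g * (l : G)⁻¹ = x
    · obtain ⟨l, hl⟩ := hx
      rw [← hl, hψ g l l.2]
      congr 2
      rw [Nat.card_eq_fintype_card, Fintype.card_subtype, ← Finset.card_map (Function.Embedding.subtype _)]
      congr 1
      ext k
      simp only [Finset.mem_filter, Finset.mem_univ, true_and, Finset.mem_map,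
        Function.Embedding.subtype_apply, Subtype.exists, exists_and_left, exists_prop,
        exists_eq_right_right]
      tauto
    · have e1 : IsEmpty {l : G // l ∈ L ∧ l * g * l⁻¹ = x} :=
        ⟨fun l => hx ⟨⟨l.1, l.2.1⟩, l.2.2⟩⟩
      rw [Nat.card_of_isEmpty, Finset.filter_eq_empty_iff.2 fun l _ hl => hx ⟨l, hl⟩]
      simp
  simp_rw [h1]
  rw [Finset.sum_comm]
  simp [Nat.card_eq_fintype_card]

private theorem TPM_reg (hCCI : CCI_stmt) {p : ℕ} {M : Ideal (integralClosure ℤ ℂ)}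
    (hM : Setup p M) {G : Type} [Group G] [Finite G] (L : Subgroup G) (ψ : G → ℂ)
    (hψ : ψ ∈ IrrOn L) (hcl : ∀ g, ∀ h ∈ L, ψ (h * g * h⁻¹) = ψ g)
    (hint : ∀ g, IntAt M (ψ g)) (n k : ℕ) (hn0 : ψ 1 ≠ 0) (hn : ψ 1 = n)
    (hk : Nat.card L = n * (p * k)) :
    ∀ (m : ℕ) (z : G → ℂ), Nat.card {x : G // z x ≠ 0} ≤ m → CF L z → (∀ x, IntAt M (z x)) →
      (∀ g, z g ≠ 0 → ¬ p ∣ Nat.card (Cz L g)) → InM M (cc ψ z) := by
  have hzs : ∀ g, InM M (cc ψ (TPM_z L g)) := by
    intro g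
    rw [TPM_z_sum L g ψ hcl, hk]
    have e1 : ((n * (p * k) : ℕ) : ℂ) * ψ g / ψ 1 = (p : ℂ) * ((k : ℂ) * ψ g) := by
      have e0 : (n : ℂ) ≠ 0 := by
        rw [← hn]
        exact hn0
      rw [hn]
      push_cast
      field_simp
    rw [e1]
    exact InM.mul_right hM (InM.prime_mem hM) ((IntAt.natCast hM k).mul hM (hint g))
  obtain ⟨hl, -, hcI⟩ := hCCI G L ψ hψ
  intro m
  induction m with
  | zero =>
    intro z hz _ _ _
    have e1 : ∀ x, z x = 0 := by
      intro x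
      by_contra hx
      have e2 : Nat.card {x : G // z x ≠ 0} = 0 := Nat.le_zero.1 hz
      rcases Nat.card_eq_zero.1 e2 with h | h
      · exact h.false ⟨x, hx⟩
      · exact h.not_finite inferInstance
    exact (hcI p M hM z fun h _ x => by rw [e1, e1]).2 fun x => by
      rw [e1]
      exact InM.zero hM
  | succ m ih =>
    intro z hz hzc hzi hzs'
    by_cases hz0 : ∀ x, z x = 0
    · exact (hcI p M hM z fun h _ x => by rw [hz0, hz0]).2 fun x => by
        rw [hz0]
        exact InM.zero hM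
    obtain ⟨g, hg⟩ := not_forall.1 hz0
    set c : ℂ := TPM_z L g g with hc
    have hcN : c = (Nat.card (Cz L g) : ℂ) := TPM_z_self L g
    have hc0 : c ≠ 0 := by
      rw [hcN]
      exact_mod_cast Nat.card_pos.ne'
    have hcM : ¬ InM M c := by
      rw [hcN, InM.natCast hM]
      exact hzs' g hg
    have hcA : IntAt M c := by
      rw [hcN]
      exact IntAt.natCast hM _
    set a : ℂ := z g * c⁻¹ with ha
    have haA : IntAt M a := (hzi g).mul hM (IntAt.inv hM hcA hcM)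
    have hs0 : ∀ x, z x = 0 → TPM_z L g x = 0 := by
      intro x hx
      unfold TPM_z
      have e1 : IsEmpty {l : G // l ∈ L ∧ l * g * l⁻¹ = x} := ⟨fun l => by
        rw [← l.2.2, hzc.1 l.1 l.2.1] at hx
        exact hg hx⟩
      rw [Nat.card_of_isEmpty, Nat.cast_zero]
    have hz'c : CF L (z - a • TPM_z L g) := by
      refine ⟨fun h hh x => ?_, fun x hx => ?_⟩
      · show z (h * x * h⁻¹) - a * TPM_z L g (h * x * h⁻¹) = z x - a * TPM_z L g x
        rw [hzc.1 h hh, TPM_z_conj L g h hh]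
      · show z x - a * TPM_z L g x = 0
        rw [hzc.2 x hx, hs0 x (hzc.2 x hx)]
        ring
    have hz'0 : ∀ x, z x = 0 → (z - a • TPM_z L g) x = 0 := by
      intro x hx
      show z x - a * TPM_z L g x = 0
      rw [hx, hs0 x hx]
      ring
    have hz'g : (z - a • TPM_z L g) g = 0 := by
      show z g - a * TPM_z L g g = 0
      rw [← hc, ha]
      field_simp
      ring
    have h1 := ih (z - a • TPM_z L g) ?_ hz'c ?_ ?_
    · have e1 : cc ψ z = cc ψ (z - a • TPM_z L g) + a * cc ψ (TPM_z L g) := by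
        rw [(hl 0 _ _).2.1, (hl a (TPM_z L g) 0).2.2.1]
        ring
      rw [e1]
      exact h1.add hM (InM.mul_left hM haA (hzs g))
    · have e1 : Nat.card {x : G // (z - a • TPM_z L g) x ≠ 0} < Nat.card {x : G // z x ≠ 0} := by
        have e2 : {x : G | (z - a • TPM_z L g) x ≠ 0} ⊂ {x : G | z x ≠ 0} := by
          refine ⟨fun x hx hzx => hx (hz'0 x hzx), fun h => ?_⟩
          exact (h hg) hz'g
        exact Set.ncard_lt_ncard e2 (Set.toFinite _)
      omega
    · intro x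
      show IntAt M (z x - a * TPM_z L g x)
      exact (hzi x).sub hM (haA.mul hM (IntAt.natCast hM _))
    · intro x hx
      exact hzs' x fun h => hx (hz'0 x h)

open Classical in
theorem TPM (hCCI : CCI_stmt) (hB2 : B2_stmt) (hC3 : C3_stmt) : TPM_stmt := by
  intro p M hM G _ _ L ψ hψ d hd hdef
  have hp : Fact p.Prime := ⟨hM.pr⟩
  obtain ⟨⟨n, hn0, hn, hnd⟩, hcl, hint, hsup, -⟩ := (hB2 G L).2 ψ hψ
  have hψ1 : ψ 1 ≠ 0 := by
    rw [hn]
    exact_mod_cast hn0.ne'
  -- p divides |L| / n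
  obtain ⟨q, hq⟩ := hnd
  have hpq : p ∣ q := by
    obtain ⟨n', hn', hdd⟩ := hdef
    have e1 : n' = n := by
      have e2 : (n' : ℂ) = n := by rw [← hn', hn]
      exact_mod_cast e2
    rw [e1, hq] at hdd
    have hq0 : q ≠ 0 := by
      rintro rfl
      rw [mul_zero] at hq
      exact Nat.card_pos.ne' hq
    rw [padicValNat.mul hn0.ne' hq0] at hdd
    have e3 : 1 ≤ padicValNat p q := by
      rw [Nat.cast_add] at hdd
      omega
    exact dvd_of_one_le_padicValNat e3
  obtain ⟨k, hk⟩ := hpq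
  rw [hk] at hq
  obtain ⟨hl, hmul, hcI⟩ := hCCI G L ψ hψ
  set t : G → ℂ := fun x => if x ∈ L ∧ x ^ p = 1 then 1 else 0 with ht
  have htt : cc ψ (tp p) = cc ψ t := by
    unfold cc
    congr 1
    refine finsum_congr fun x => ?_
    by_cases hx : x ∈ L
    · simp [ht, tp, hx]
    · rw [hsup x hx, mul_zero, mul_zero]
  have htc : CF L t := by
    refine ⟨fun h hh x => ?_, fun x hx => ?_⟩
    · have e1 : h * x * h⁻¹ ∈ L ↔ x ∈ L := by
        rw [L.mul_mem_cancel_right (L.inv_mem hh), L.mul_mem_cancel_left hh]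
      have e2 : (h * x * h⁻¹) ^ p = 1 ↔ x ^ p = 1 := by
        rw [conj_pow]
        constructor
        · intro e
          calc x ^ p = h⁻¹ * (h * x ^ p * h⁻¹) * h := by group
            _ = 1 := by rw [e]; group
        · intro e
          rw [e]
          group
      simp only [ht, e1, e2]
    · simp [ht, hx]
  have hti : ∀ x, IntAt M (t x) := by
    intro x
    simp only [ht]
    split_ifs
    · exact IntAt.one hM
    · exact IntAt.zero hM
  obtain ⟨-, -, -, -, -, -, -, hcc, -, -, hIcv, -⟩ := CVF G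
  have hNc : CF L (cv t t) := (hcc L t t htc htc).1
  have hNv : ∀ g, cv t t g = (Nat.card {x : G // x ∈ L ∧ x ^ p = 1 ∧ x⁻¹ * g ∈ L ∧
      (x⁻¹ * g) ^ p = 1} : ℂ) := by
    intro g
    cases nonempty_fintype G
    unfold cv
    rw [finsum_eq_sum_of_fintype, Nat.card_eq_fintype_card, Fintype.card_subtype]
    rw [Finset.card_filter]
    push_cast
    refine Finset.sum_congr rfl fun x _ => ?_
    simp only [ht]
    by_cases h1 : x ∈ L ∧ x ^ p = 1
    · by_cases h2 : x⁻¹ * g ∈ L ∧ (x⁻¹ * g) ^ p = 1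
      · rw [if_pos h1, if_pos h2, if_pos ⟨h1.1, h1.2, h2⟩, one_mul]
      · rw [if_pos h1, if_neg h2, if_neg fun h => h2 h.2.2, one_mul]
    · rw [if_neg h1, zero_mul, if_neg fun h => h1 ⟨h.1, h.2.1⟩]
  rw [htt]
  refine InM.of_pow hM ((hcI p M hM t htc.1).1 hti) (n := 2) ?_
  rw [pow_two, ← hmul t t htc htc]
  set N₂ : G → ℂ := fun g => if p ∣ Nat.card (Cz L g) then 0 else cv t t g with hN₂
  have hN₂c : CF L N₂ := by
    refine ⟨fun h hh x => ?_, fun x hx => ?_⟩
    · have e1 : Nat.card (Cz L (h * x * h⁻¹)) = Nat.card (Cz L x) := by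
        have e2 : (Nat.card (Cz L (h * x * h⁻¹)) : ℂ) = (Nat.card (Cz L x) : ℂ) := by
          rw [← TPM_z_self, ← TPM_z_self, TPM_z_conj L _ h hh x]
          unfold TPM_z
          congr 1
          refine Nat.card_congr ((Equiv.mulRight h).subtypeEquiv fun l => ?_)
          show l ∈ L ∧ l * (h * x * h⁻¹) * l⁻¹ = x ↔ l * h ∈ L ∧ (l * h) * x * (l * h)⁻¹ = x
          have e3 : l * (h * x * h⁻¹) * l⁻¹ = (l * h) * x * (l * h)⁻¹ := by group
          rw [e3, L.mul_mem_cancel_right hh]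
        exact_mod_cast e2
      simp only [hN₂, e1, hNc.1 h hh x]
    · simp only [hN₂, hNc.2 x hx, ite_self]
  have e3 : cc ψ (cv t t) = cc ψ (cv t t - N₂) + cc ψ N₂ := by
    rw [(hl 0 _ _).2.1]
    ring
  rw [e3]
  refine InM.add hM ?_ ?_
  · refine (hcI p M hM _ (fun h hh x => ?_)).2 fun g => ?_
    · show cv t t (h * x * h⁻¹) - N₂ (h * x * h⁻¹) = cv t t x - N₂ x
      rw [hNc.1 h hh, hN₂c.1 h hh]
    · show InM M (cv t t g - N₂ g)
      by_cases hg : p ∣ Nat.card (Cz L g)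
      · simp only [hN₂, if_pos hg, sub_zero]
        rw [hNv, InM.natCast hM]
        exact TPM_div L g hg
      · simp only [hN₂, if_neg hg, sub_self]
        exact InM.zero hM
  · refine TPM_reg hCCI hM L ψ hψ hcl (fun g => IntAt.of_isIntegral hM (hint g)) n k hψ1 hn hq
      _ N₂ le_rfl hN₂c (fun g => ?_) fun g hg => ?_
    · simp only [hN₂]
      split_ifs
      · exact IntAt.zero hM
      · exact hIcv p M hM t t hti hti g
    · intro h
      exact hg (by simp only [hN₂, if_pos h])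

end Pool.Agent.OB
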