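import Pool.Agent.helper22.OB.SpecZ
import Pool.Agent.helper11.DC.IRF

/-! # Project ob (MP_baa4d7_al), row ob:ZT2 -/

set_option autoImplicit false

namespace Pool.Agent.OB

open Pool.Agent.helper58.DC Pool.Agent.DI Pool.Agent.GR

/-- small functions -/
private structure ZT2_Sm {G : Type} [Group G] (M : Ideal (integralClosure ℤ ℂ)) (y : G)
    (f : G → ℂ) : Prop where
  cf : CF ⊤ f
  int : ∀ u, IntAt M (f u)
  small : ∀ u, Commute y u → InM M (f u)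

private theorem ZT2_cls {G : Type} [Group G] {f : G → ℂ} (h : CF ⊤ f) :
    ∀ x y, f (y * x * y⁻¹) = f x := fun x y => h.1 y (Subgroup.mem_top y) x

private theorem ZT2_cf {G : Type} [Group G] {f : G → ℂ} (h : ∀ x y, f (y * x * y⁻¹) = f x) :
    CF ⊤ f := ⟨fun y _ x => h x y, fun x hx => absurd (Subgroup.mem_top x) hx⟩

private theorem ZT2_cv (hZTI : ZTI_stmt) (hCVF : CVF_stmt) {p : ℕ}
    {M : Ideal (integralClosure ℤ ℂ)} (hM : Setup p M) {G : Type} [Group G] [Finite G] {y : G}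
    (hy : PEl p y) {f w : G → ℂ} (hf : ZT2_Sm M y f) (hw : CF ⊤ w) (hwi : ∀ u, IntAt M (w u)) :
    ZT2_Sm M y (cv f w) := by
  obtain ⟨-, -, -, -, -, -, -, hcc, -, -, hint, -⟩ := hCVF G
  exact ⟨(hcc ⊤ f w hf.cf hw).1, hint p M hM f w hf.int hwi,
    hZTI p M hM G f w (ZT2_cls hf.cf) (ZT2_cls hw) hf.int hwi y hy hf.small⟩

private theorem ZT2_comb (hCVF : CVF_stmt) {p : ℕ}
    {M : Ideal (integralClosure ℤ ℂ)} (hM : Setup p M) {G : Type} [Group G] [Finite G] {y : G}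
    {f₁ f₂ f₃ : G → ℂ} (h₁ : ZT2_Sm M y f₁) (h₂ : ZT2_Sm M y f₂) (h₃ : ZT2_Sm M y f₃)
    {a c : ℂ} (ha : IntAt M a) (hc : IntAt M c) :
    ZT2_Sm M y (a • f₁ + c • f₂ - f₃) := by
  obtain ⟨-, -, -, -, -, -, -, hcc, hsm, -, -, -⟩ := hCVF G
  refine ⟨?_, fun u => ?_, fun u hu => ?_⟩
  · have e1 := (hcc ⊤ (a • f₁) (c • f₂) (hsm ⊤ a f₁ h₁.cf) (hsm ⊤ c f₂ h₂.cf)).2.1
    exact (hcc ⊤ _ f₃ e1 h₃.cf).2.2
  · show IntAt M (a * f₁ u + c * f₂ u - f₃ u)
    exact ((ha.mul hM (h₁.int u)).add hM (hc.mul hM (h₂.int u))).sub hM (h₃.int u)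
  · show InM M (a * f₁ u + c * f₂ u - f₃ u)
    exact ((InM.mul_left hM ha (h₁.small u hu)).add hM
      (InM.mul_left hM hc (h₂.small u hu))).sub hM (h₃.small u hu)

open Classical in
theorem ZT2 (hZT0 : ZT0_stmt) (hZTI : ZTI_stmt) (hEXP : EXP_stmt) (hCCI : CCI_stmt)
    (hCVF : CVF_stmt) (hOI : OI_stmt) (hTI : TI_stmt) (hC3 : C3_stmt) : ZT2_stmt := by
  intro p M hM G _ _ χ hχ e x hx hxy g hg y hyg hy
  by_contra hye
  obtain ⟨hz1, hz2, hz3⟩ := hZT0 p M hM G χ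
  set ζ : G → ℂ := zeta M χ with hζ
  have hζc : CF ⊤ ζ := ZT2_cf hz1
  obtain ⟨-, hom, -, -⟩ := hC3 G
  set k : G → ℂ := fun u => if u ∈ conjugatesOf x then (1 : ℂ) else 0 with hk
  have hkom : ∀ θ : G → ℂ, omega θ x = cc θ k := fun θ => (hom θ x).1
  have hkz : IsZO k := (hom χ x).2
  have hkc : CF ⊤ k := ZT2_cf hkz.1
  have hki : ∀ u, IntAt M (k u) := fun u => IntAt.of_isIntegral hM (hkz.2 u)
  have hks : ZT2_Sm M y k := by
    refine ⟨hkc, hki, fun u hu => ?_⟩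
    have e1 : k u = 0 := by
      simp only [hk]
      rw [if_neg]
      intro hmem
      have hc : IsConj x u := hmem
      obtain ⟨c, hc⟩ := isConj_iff.1 hc
      apply hye
      have h1 : Commute (c⁻¹ * y * c) x := by
        have e2 : y * (c * x * c⁻¹) = c * x * c⁻¹ * y := by
          rw [hc]
          exact hu
        show c⁻¹ * y * c * x = x * (c⁻¹ * y * c)
        have e3 : c⁻¹ * y * c * x = c⁻¹ * (y * (c * x * c⁻¹)) * c := by group
        have e4 : x * (c⁻¹ * y * c) = c⁻¹ * (c * x * c⁻¹ * y) * c := by group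
        rw [e3, e4, e2]
      have h2 : ∀ n : ℕ, (c⁻¹ * y * c) ^ n = c⁻¹ * y ^ n * c := by
        intro n
        have e3 := conj_pow (i := n) (a := c⁻¹) (b := y)
        rw [inv_inv] at e3
        exact e3
      have h3 : PEl p (c⁻¹ * y * c) := by
        obtain ⟨n, hn⟩ := hy
        exact ⟨n, by rw [h2, hn]; group⟩
      have h4 := hxy _ h1 h3
      rw [h2] at h4
      have h5 : y ^ e = c * (c⁻¹ * y ^ e * c) * c⁻¹ := by group
      rw [h5, h4]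
      group
    rw [e1]
    exact InM.zero hM
  have hIrr : ∀ θ : G → ℂ, θ ∈ IrrOn (⊤ : Subgroup G) ↔ θ ∈ Irr G := fun θ => hTI G θ
  have hI1 : ∀ θ ∈ IrrOn (⊤ : Subgroup G), θ ∈ Blk M χ ⊤ → cc θ ζ = 1 := by
    intro θ hθ hB
    rw [hz3 θ ((hIrr θ).1 hθ), if_pos hB.2]
  have hI0 : ∀ θ ∈ IrrOn (⊤ : Subgroup G), θ ∉ Blk M χ ⊤ → cc θ ζ = 0 := by
    intro θ hθ hB
    rw [hz3 θ ((hIrr θ).1 hθ), if_neg]
    intro h
    exact hB ⟨hθ, h⟩
  have hfin : (Blk M χ (⊤ : Subgroup G)).Finite := by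
    refine ((Pool.Agent.helper11.DC.IRF G).1).subset ?_
    intro θ hθ
    exact (hIrr θ).1 hθ.1
  obtain ⟨-, -, -, -, -, -, -, hcc, hsm, -, hint, -⟩ := hCVF G
  have hkζc : CF ⊤ (cv k ζ) := (hcc ⊤ k ζ hkc hζc).1
  have hkζi : ∀ u, IntAt M (cv k ζ u) := hint p M hM k ζ hki hz2
  have claim : ∀ T : Finset (G → ℂ), (∀ θ ∈ T, θ ∈ Blk M χ ⊤) →
      ∃ (a : ℂ) (f : G → ℂ), IntAt M a ∧ ¬ InM M a ∧ ZT2_Sm M y f ∧
        (∀ θ ∈ IrrOn (⊤ : Subgroup G), θ ∉ Blk M χ ⊤ → cc θ f = 0) ∧ ∀ θ ∈ T, cc θ f = a := by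
    intro T
    induction T using Finset.induction_on with
    | empty =>
      intro _
      refine ⟨1, 0, IntAt.one hM, InM.not_one hM, ⟨ZT2_cf fun _ _ => rfl,
        fun u => IntAt.zero hM, fun u _ => InM.zero hM⟩, fun θ _ _ => ?_, fun θ hθ => ?_⟩
      · simp [cc]
      · exact absurd hθ (Finset.notMem_empty θ)
    | insert φ T hφT ih =>
      intro hT
      obtain ⟨a, f, ha, ha', hf, hf0, hfa⟩ := ih fun θ hθ => hT θ (Finset.mem_insert_of_mem hθ)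
      have hφ := hT φ (Finset.mem_insert_self φ T)
      have hci : IntAt M (omega φ x) := IntAt.of_isIntegral hM (hOI G ⊤ φ hφ.1 x)
      have hcn : ¬ InM M (omega φ x) := by
        intro h
        apply hx
        obtain ⟨b, hb, hbe⟩ := hφ.2 x
        have e1 : omega χ x = omega φ x - (b : ℂ) := by
          rw [← hbe]
          ring
        rw [e1]
        exact h.sub hM (InM.coe hM hb)
      set c : ℂ := omega φ x with hc
      refine ⟨a * c, a • (cv k ζ) + c • (cv f ζ) - cv f (cv k ζ), ha.mul hM hci, ?_, ?_, ?_, ?_⟩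
      · intro h
        exact (InM.or hM ha hci h).elim ha' hcn
      · exact ZT2_comb hCVF hM (ZT2_cv hZTI hCVF hM hy hks hζc hz2)
          (ZT2_cv hZTI hCVF hM hy hf hζc hz2) (ZT2_cv hZTI hCVF hM hy hf hkζc hkζi) ha hci
      · intro θ hθ hB
        obtain ⟨hl, hm, -⟩ := hCCI G ⊤ θ hθ
        rw [(hl 0 _ _).2.1, (hl 0 _ _).1, (hl a (cv k ζ) 0).2.2.1, (hl c (cv f ζ) 0).2.2.1,
          hm k ζ hkc hζc, hm f ζ hf.cf hζc, hm f (cv k ζ) hf.cf hkζc, hm k ζ hkc hζc,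
          hI0 θ hθ hB]
        ring
      · intro θ hθ
        have hB := hT θ hθ
        obtain ⟨hl, hm, -⟩ := hCCI G ⊤ θ hB.1
        rw [(hl 0 _ _).2.1, (hl 0 _ _).1, (hl a (cv k ζ) 0).2.2.1, (hl c (cv f ζ) 0).2.2.1,
          hm k ζ hkc hζc, hm f ζ hf.cf hζc, hm f (cv k ζ) hf.cf hkζc, hm k ζ hkc hζc,
          hI1 θ hB.1 hB]
        rcases Finset.mem_insert.1 hθ with h | h
        · rw [h, ← hkom φ, ← hc]
          ring
        · rw [hfa θ h]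
          ring
  obtain ⟨a, f, ha, ha', hf, hf0, hfa⟩ := claim hfin.toFinset fun θ hθ => hfin.mem_toFinset.1 hθ
  have hfz : f - a • ζ = 0 := by
    refine hEXP G ⊤ _ ?_ fun θ hθ => ?_
    · exact (hcc ⊤ f (a • ζ) hf.cf (hsm ⊤ a ζ hζc)).2.2
    · obtain ⟨hl, -, -⟩ := hCCI G ⊤ θ hθ
      rw [(hl 0 _ _).2.1, (hl a ζ 0).2.2.1]
      by_cases hB : θ ∈ Blk M χ ⊤
      · rw [hfa θ (hfin.mem_toFinset.2 hB), hI1 θ hθ hB]
        ring
      · rw [hf0 θ hθ hB, hI0 θ hθ hB]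
        ring
  have hfg : f g = a * ζ g := by
    have e1 := congrFun hfz g
    have e2 : f g - a * ζ g = 0 := e1
    exact sub_eq_zero.1 e2
  have h1 := hf.small g hyg
  rw [hfg] at h1
  exact (InM.or hM ha (hz2 g) h1).elim ha' hg

end Pool.Agent.OB
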