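import Pool.Agent.helper38.OB.Spec

namespace Pool.Agent.OB

open Finset

theorem TB_cover {j : ℕ} (F : Finset (Fin j → ℕ)) (G : Fin j → Finset (Fin j → ℕ)) (f : (Fin j → ℕ) → ℝ)
    (hf : ∀ x, 0 ≤ f x) (hFG : ∀ x ∈ F, ∃ i, x ∈ G i) :
    ∑ x ∈ F, f x ≤ ∑ i : Fin j, ∑ x ∈ G i, f x := by
  classical
  have h1 : ∑ x ∈ F, f x ≤ ∑ x ∈ F, ∑ i : Fin j, (if x ∈ G i then f x else 0) := by
    refine Finset.sum_le_sum fun x hx => ?_
    obtain ⟨i, hi⟩ := hFG x hx
    have h2 : (if x ∈ G i then f x else 0) ≤ ∑ i : Fin j, (if x ∈ G i then f x else 0) := by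
      refine Finset.single_le_sum (f := fun i => if x ∈ G i then f x else 0) ?_ (Finset.mem_univ i)
      intro k _
      split_ifs
      · exact hf x
      · exact le_rfl
    rw [if_pos hi] at h2
    exact h2
  refine h1.trans ?_
  rw [Finset.sum_comm]
  refine Finset.sum_le_sum fun i _ => ?_
  rw [← Finset.sum_filter]
  refine Finset.sum_le_sum_of_subset_of_nonneg ?_ (fun x _ _ => hf x)
  intro x hx
  exact (Finset.mem_filter.1 hx).2

theorem TB_num (h : ℕ) (hh : 3 ≤ h) (κ : ℝ) (hκ : 0 < κ) (hκ1 : κ ≤ 1) (l j : ℕ) (hj : 1 ≤ j) (hjh : j < h)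
    (hdep : C0 h ^ dep h l ≤ l + 1) :
    pl h κ l * (2 * κ * (be h : ℝ) ^ l) ^ (j - 1) ≤ C0 h * 2 ^ h * (l + 1) / (be h : ℝ) ^ l := by
  have hC0 : 1 ≤ C0 h := by
    unfold C0
    have : 1 ≤ h ^ 2 := Nat.one_le_pow _ _ (by omega)
    omega
  have hbe : 1 ≤ be h := by
    unfold be
    exact Nat.one_le_pow _ _ (by omega)
  have hbeR : (1 : ℝ) ≤ (be h : ℝ) := by exact_mod_cast hbe
  have hC0R : (1 : ℝ) ≤ (C0 h : ℝ) := by exact_mod_cast hC0
  have hbe0 : (0 : ℝ) < (be h : ℝ) := by linarith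
  have hdR : (C0 h : ℝ) ^ dep h l ≤ (l : ℝ) + 1 := by exact_mod_cast hdep
  have hBs : (Bs h : ℝ) = (be h : ℝ) ^ h := by
    unfold Bs
    push_cast
    ring
  have hBsl : (be h : ℝ) ^ (l * (j + 1)) ≤ (Bs h : ℝ) ^ (l + 1) := by
    rw [hBs, ← pow_mul]
    refine pow_le_pow_right₀ hbeR ?_
    calc l * (j + 1) ≤ l * h := Nat.mul_le_mul_left _ (by omega)
      _ = h * l := Nat.mul_comm _ _
      _ ≤ h * (l + 1) := Nat.mul_le_mul_left _ (by omega)
  have hBspos : (0 : ℝ) < (Bs h : ℝ) ^ (l + 1) := by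
    rw [hBs]
    positivity
  have h1 : pl h κ l ≤ (C0 h * ((l : ℝ) + 1)) * (be h : ℝ) ^ l / (Bs h : ℝ) ^ (l + 1) := by
    unfold pl
    refine div_le_div_of_nonneg_right ?_ hBspos.le
    have e1 : (C0 h : ℝ) ^ (dep h l + 1) ≤ C0 h * ((l : ℝ) + 1) := by
      rw [pow_succ, mul_comm]
      exact mul_le_mul_of_nonneg_left hdR (by linarith)
    calc κ * (be h : ℝ) ^ l * (C0 h : ℝ) ^ (dep h l + 1) ≤ 1 * (be h : ℝ) ^ l * (C0 h * ((l : ℝ) + 1)) := by
          gcongr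
      _ = (C0 h * ((l : ℝ) + 1)) * (be h : ℝ) ^ l := by ring
  have h2 : (2 * κ * (be h : ℝ) ^ l) ^ (j - 1) ≤ 2 ^ h * (be h : ℝ) ^ (l * (j - 1)) := by
    calc (2 * κ * (be h : ℝ) ^ l) ^ (j - 1) ≤ (2 * 1 * (be h : ℝ) ^ l) ^ (j - 1) := by
          gcongr
      _ = 2 ^ (j - 1) * (be h : ℝ) ^ (l * (j - 1)) := by
          rw [mul_one, mul_pow, ← pow_mul]
      _ ≤ 2 ^ h * (be h : ℝ) ^ (l * (j - 1)) := by
          refine mul_le_mul_of_nonneg_right ?_ (by positivity)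
          exact pow_le_pow_right₀ (by norm_num) (by omega)
  have hpl0 : 0 ≤ pl h κ l := by
    unfold pl
    positivity
  calc pl h κ l * (2 * κ * (be h : ℝ) ^ l) ^ (j - 1)
      ≤ ((C0 h * ((l : ℝ) + 1)) * (be h : ℝ) ^ l / (Bs h : ℝ) ^ (l + 1)) * (2 ^ h * (be h : ℝ) ^ (l * (j - 1))) :=
        mul_le_mul h1 h2 (by positivity) (by positivity)
    _ = (C0 h * 2 ^ h * ((l : ℝ) + 1)) * ((be h : ℝ) ^ (l * j) / (Bs h : ℝ) ^ (l + 1)) := by
        have e : (be h : ℝ) ^ (l * j) = (be h : ℝ) ^ l * (be h : ℝ) ^ (l * (j - 1)) := by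
          rw [← pow_add]
          congr 1
          obtain ⟨k, rfl⟩ : ∃ k, j = k + 1 := ⟨j - 1, by omega⟩
          rw [Nat.add_sub_cancel, Nat.mul_succ, Nat.add_comm]
        rw [e]
        ring
    _ ≤ (C0 h * 2 ^ h * ((l : ℝ) + 1)) * (1 / (be h : ℝ) ^ l) := by
        refine mul_le_mul_of_nonneg_left ?_ (by positivity)
        rw [div_le_div_iff₀ hBspos (by positivity), one_mul]
        refine le_trans (le_of_eq ?_) hBsl
        rw [← pow_add]
        congr 1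
    _ = C0 h * 2 ^ h * (l + 1) / (be h : ℝ) ^ l := by ring

theorem TB_card (hCEL : CEL_stmt) (h : ℕ) (hh : 3 ≤ h) (l J : ℕ) (hJ : J ≤ l) (c r : ℤ) (hc : c ≠ 0) :
    ((S h l).filter fun y : ℕ => |r + c * (y : ℤ)| ≤ ((Bs h ^ J : ℕ) : ℤ)).card ≤ 6 * Bs h ^ J := by
  classical
  rcases ((S h l).filter fun y : ℕ => |r + c * (y : ℤ)| ≤ ((Bs h ^ J : ℕ) : ℤ)).eq_empty_or_nonempty with he | ⟨y0, hy0⟩
  · rw [he, Finset.card_empty]
    exact Nat.zero_le _
  · have hC0 : 1 ≤ C0 h := by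
      unfold C0
      have : 1 ≤ h ^ 2 := Nat.one_le_pow _ _ (by omega)
      omega
    have h1 := hCEL h hh l J hJ (y0 : ℤ)
    have hsub : ((S h l).filter fun y : ℕ => |r + c * (y : ℤ)| ≤ ((Bs h ^ J : ℕ) : ℤ)) ⊆
        (S h l).filter fun x : ℕ => |(x : ℤ) - (y0 : ℤ)| ≤ 2 * (Bs h : ℤ) ^ J := by
      intro y hy
      rw [Finset.mem_filter] at hy hy0 ⊢
      refine ⟨hy.1, ?_⟩
      have a1 := hy.2
      have a2 := hy0.2
      push_cast at a1 a2
      have a3 : |c * ((y : ℤ) - (y0 : ℤ))| ≤ 2 * (Bs h : ℤ) ^ J := by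
        have e : c * ((y : ℤ) - (y0 : ℤ)) = (r + c * (y : ℤ)) - (r + c * (y0 : ℤ)) := by ring
        rw [e]
        refine (abs_sub _ _).trans ?_
        linarith
      refine le_trans ?_ a3
      rw [abs_mul]
      have hc1 : 1 ≤ |c| := Int.one_le_abs hc
      nlinarith [abs_nonneg ((y : ℤ) - (y0 : ℤ))]
    refine (Finset.card_le_card hsub).trans ?_
    refine le_trans ?_ h1
    exact Nat.le_mul_of_pos_right _ (Nat.pow_pos (by omega))

theorem TB (hBAS : BAS_stmt) (hWTS : WTS_stmt) (hLOW : LOW_stmt) (hELI : ELI_stmt) (hCEL : CEL_stmt) : TB_stmt := by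
  intro h hh
  have hC0 : 1 ≤ C0 h := by
    unfold C0
    have : 1 ≤ h ^ 2 := Nat.one_le_pow _ _ (by omega)
    omega
  have hC0R : (1 : ℝ) ≤ (C0 h : ℝ) := by exact_mod_cast hC0
  have hhR : (3 : ℝ) ≤ (h : ℝ) := by exact_mod_cast hh
  refine ⟨6 * h * (C0 h * 2 ^ h), by positivity, ?_⟩
  intro κ hκ hκ1 l0 l j c hj hjh hc s J hJ
  classical
  have hw : ∀ y, 0 ≤ wt h κ y := fun y => (hWTS h hh κ hκ hκ1 (lev h y)).2.1.le
  have hbe : 1 ≤ be h := by
    unfold be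
    exact Nat.one_le_pow _ _ (by omega)
  have hbe0 : (0 : ℝ) < (be h : ℝ) := by exact_mod_cast hbe
  have hcover : Ex h κ (top h l (RN c s (Bs h ^ J) (U h l0 l))) ≤
      ∑ i0 : Fin j, ∑ x ∈ (Fintype.piFinset (fun i => if i = i0 then S h l else U h l0 l)).filter
        (fun x => |s + lf c x| ≤ ((Bs h ^ J : ℕ) : ℤ)), ∏ i, wt h κ (x i) := by
    unfold Ex
    refine TB_cover _ _ _ (fun x => Finset.prod_nonneg fun i _ => hw _) ?_
    intro x hx
    unfold top RN RQ Inj at hx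
    simp only [Finset.mem_filter, Fintype.mem_piFinset] at hx
    obtain ⟨⟨⟨hxU, _⟩, hxP⟩, i0, hi0⟩ := hx
    refine ⟨i0, ?_⟩
    rw [Finset.mem_filter, Fintype.mem_piFinset]
    refine ⟨fun i => ?_, hxP⟩
    by_cases hi : i = i0
    · subst hi
      rw [if_pos rfl]
      have h1 := hxU i
      unfold U at h1
      rw [Finset.mem_biUnion] at h1
      obtain ⟨k, _, hk2⟩ := h1
      have h2 := ((hBAS h hh k).1 _ hk2).1
      rw [hi0] at h2
      rw [h2]
      exact hk2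
    · rw [if_neg hi]
      exact hxU i
  refine hcover.trans ?_
  have hone : ∀ i0 : Fin j, ∑ x ∈ (Fintype.piFinset (fun i => if i = i0 then S h l else U h l0 l)).filter
        (fun x => |s + lf c x| ≤ ((Bs h ^ J : ℕ) : ℤ)), ∏ i, wt h κ (x i) ≤
      6 * (Bs h : ℝ) ^ J * (C0 h * 2 ^ h * (l + 1) / (be h : ℝ) ^ l) := by
    intro i0
    have hp0 : 0 ≤ pl h κ l := (hWTS h hh κ hκ hκ1 l).2.1.le
    have h1 := hELI j (fun i => if i = i0 then S h l else U h l0 l) (wt h κ) i0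
      (fun x => |s + lf c x| ≤ ((Bs h ^ J : ℕ) : ℤ)) (pl h κ l) (6 * (Bs h : ℝ) ^ J) hw hp0 (by positivity)
      (by
        intro y hy
        rw [if_pos rfl] at hy
        exact ((hWTS h hh κ hκ hκ1 l).1 y hy).le)
      (by
        intro x _
        rw [if_pos rfl]
        have e : ∀ y : ℕ, s + lf c (Function.update x i0 y) =
            (s + ∑ i ∈ Finset.univ.erase i0, c i * (x i : ℤ)) + c i0 * (y : ℤ) := by
          intro y
          unfold lf
          rw [← Finset.add_sum_erase _ _ (Finset.mem_univ i0), Function.update_self]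
          have e2 : ∑ i ∈ Finset.univ.erase i0, c i * ((Function.update x i0 y i : ℕ) : ℤ) =
              ∑ i ∈ Finset.univ.erase i0, c i * (x i : ℤ) := by
            refine Finset.sum_congr rfl fun i hi => ?_
            rw [Function.update_of_ne (Finset.ne_of_mem_erase hi)]
          rw [e2]
          ring
        have h2 := TB_card hCEL h hh l J hJ (c i0) (s + ∑ i ∈ Finset.univ.erase i0, c i * (x i : ℤ)) (hc i0).1
        have h3 : ((S h l).filter fun y => |s + lf c (Function.update x i0 y)| ≤ ((Bs h ^ J : ℕ) : ℤ)) =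
            (S h l).filter fun y : ℕ => |(s + ∑ i ∈ Finset.univ.erase i0, c i * (x i : ℤ)) + c i0 * (y : ℤ)| ≤
              ((Bs h ^ J : ℕ) : ℤ) := by
          refine Finset.filter_congr fun y _ => ?_
          rw [e y]
        rw [h3]
        exact_mod_cast h2)
    refine h1.trans ?_
    have hprod : ∏ i ∈ Finset.univ.erase i0, ∑ y ∈ (if i = i0 then S h l else U h l0 l), wt h κ y ≤
        (2 * κ * (be h : ℝ) ^ l) ^ (j - 1) := by
      have h4 : ∏ i ∈ Finset.univ.erase i0, ∑ y ∈ (if i = i0 then S h l else U h l0 l), wt h κ y ≤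
          ∏ i ∈ Finset.univ.erase i0, (2 * κ * (be h : ℝ) ^ l) := by
        refine Finset.prod_le_prod (fun i _ => Finset.sum_nonneg fun y _ => hw y) fun i hi => ?_
        rw [if_neg (Finset.ne_of_mem_erase hi)]
        exact (hLOW h hh κ hκ hκ1 l0 l 0).1
      refine h4.trans (le_of_eq ?_)
      rw [Finset.prod_const, Finset.card_erase_of_mem (Finset.mem_univ _), Finset.card_univ, Fintype.card_fin]
    have h5 := TB_num h hh κ hκ hκ1 l j hj hjh (hBAS h hh l).2.2.2.2.1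
    calc 6 * (Bs h : ℝ) ^ J * pl h κ l * ∏ i ∈ Finset.univ.erase i0, ∑ y ∈ (if i = i0 then S h l else U h l0 l), wt h κ y
        ≤ 6 * (Bs h : ℝ) ^ J * pl h κ l * (2 * κ * (be h : ℝ) ^ l) ^ (j - 1) :=
          mul_le_mul_of_nonneg_left hprod (by positivity)
      _ = 6 * (Bs h : ℝ) ^ J * (pl h κ l * (2 * κ * (be h : ℝ) ^ l) ^ (j - 1)) := by ring
      _ ≤ 6 * (Bs h : ℝ) ^ J * (C0 h * 2 ^ h * (l + 1) / (be h : ℝ) ^ l) :=
          mul_le_mul_of_nonneg_left h5 (by positivity)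
  refine (Finset.sum_le_sum fun i0 _ => hone i0).trans ?_
  rw [Finset.sum_const, Finset.card_univ, Fintype.card_fin, nsmul_eq_mul]
  have hjR : (j : ℝ) ≤ (h : ℝ) := by exact_mod_cast hjh.le
  calc (j : ℝ) * (6 * (Bs h : ℝ) ^ J * (C0 h * 2 ^ h * (l + 1) / (be h : ℝ) ^ l))
      ≤ (h : ℝ) * (6 * (Bs h : ℝ) ^ J * (C0 h * 2 ^ h * (l + 1) / (be h : ℝ) ^ l)) :=
        mul_le_mul_of_nonneg_right hjR (by positivity)
    _ = 6 * h * (C0 h * 2 ^ h) * (Bs h : ℝ) ^ J * (l + 1) / (be h : ℝ) ^ l := by ring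

end Pool.Agent.OB
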